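import Mathlib
import Pool.Agent.H330.Ramsey

namespace Pool.Agent.H825R3

open Pool.Agent.H330

/-- Infinite Ramsey for pairs in the form of a strictly increasing selection. -/
theorem ramsey_two (P : ℕ → ℕ → Prop) :
    ∃ g : ℕ → ℕ, StrictMono g ∧
      ((∀ a b, a < b → P (g a) (g b)) ∨ (∀ a b, a < b → ¬ P (g a) (g b))) := by
  classical
  let Q : List ℕ → Prop := fun l => P (l.getD 0 0) (l.getD 1 0)
  obtain ⟨H, c, hH, hc⟩ := infinite_ramsey (A := ℕ) (C := Prop) 2
    (fun s : Finset ℕ => Q (s.sort (· ≤ ·)))
  have hinf : Infinite H := hH.to_subtype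
  let g : ℕ → ℕ := Nat.orderEmbeddingOfSet H
  have hgm : StrictMono g := (Nat.orderEmbeddingOfSet H).strictMono
  have hgr : ∀ n, g n ∈ H := by
    intro n
    have h := @Set.mem_range_self _ _ ↑(Nat.orderEmbeddingOfSet H) n
    rwa [Nat.orderEmbeddingOfSet_range H] at h
  have key : ∀ a b, a < b → (P (g a) (g b) = c) := by
    intro a b hab
    have h1 : g a < g b := hgm hab
    have hs : ({g a, g b} : Finset ℕ).card = 2 := Finset.card_pair h1.ne
    have hsub : (↑({g a, g b} : Finset ℕ) : Set ℕ) ⊆ H := by
      intro z hz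
      simp only [Finset.coe_insert, Finset.coe_singleton, Set.mem_insert_iff,
        Set.mem_singleton_iff] at hz
      rcases hz with rfl | rfl <;> exact hgr _
    have h2 := hc _ hs hsub
    have h3 : ({g a, g b} : Finset ℕ).sort (· ≤ ·) = [g a, g b] := by
      have hnd : ([g a, g b] : List ℕ).Nodup := by simp [h1.ne]
      have := (List.toFinset_sort (r := (· ≤ ·)) hnd).2 (by simp [h1.le])
      simpa using this
    simpa [Q, h3] using h2
  refine ⟨g, hgm, ?_⟩
  by_cases hcc : c
  · left
    intro a b hab
    rw [key a b hab]; exact hcc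
  · right
    intro a b hab
    rw [key a b hab]; exact hcc

/-- Infinite Ramsey for quadruples in the form of a strictly increasing selection. -/
theorem ramsey_four (P : ℕ → ℕ → ℕ → ℕ → Prop) :
    ∃ g : ℕ → ℕ, StrictMono g ∧
      ((∀ a b i j, a < b → b < i → i < j → P (g a) (g b) (g i) (g j)) ∨
        (∀ a b i j, a < b → b < i → i < j → ¬ P (g a) (g b) (g i) (g j))) := by
  classical
  let Q : List ℕ → Prop := fun l => P (l.getD 0 0) (l.getD 1 0) (l.getD 2 0) (l.getD 3 0)
  obtain ⟨H, c, hH, hc⟩ := infinite_ramsey (A := ℕ) (C := Prop) 4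
    (fun s : Finset ℕ => Q (s.sort (· ≤ ·)))
  have hinf : Infinite H := hH.to_subtype
  let g : ℕ → ℕ := Nat.orderEmbeddingOfSet H
  have hgm : StrictMono g := (Nat.orderEmbeddingOfSet H).strictMono
  have hgr : ∀ n, g n ∈ H := by
    intro n
    have h := @Set.mem_range_self _ _ ↑(Nat.orderEmbeddingOfSet H) n
    rwa [Nat.orderEmbeddingOfSet_range H] at h
  have key : ∀ a b i j, a < b → b < i → i < j → (P (g a) (g b) (g i) (g j) = c) := by
    intro a b i j hab hbi hij
    have h1 : g a < g b := hgm hab
    have h2 : g b < g i := hgm hbi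
    have h3 : g i < g j := hgm hij
    have hnd : ([g a, g b, g i, g j] : List ℕ).Nodup := by
      simp only [List.nodup_cons, List.mem_cons, List.not_mem_nil, or_false, not_or,
        List.nodup_nil, and_true, not_false_eq_true]
      omega
    have hs : ({g a, g b, g i, g j} : Finset ℕ).card = 4 := by
      have := List.toFinset_card_of_nodup hnd
      simpa using this
    have hsub : (↑({g a, g b, g i, g j} : Finset ℕ) : Set ℕ) ⊆ H := by
      intro z hz
      simp only [Finset.coe_insert, Finset.coe_singleton, Set.mem_insert_iff,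
        Set.mem_singleton_iff] at hz
      rcases hz with rfl | rfl | rfl | rfl <;> exact hgr _
    have h5 := hc _ hs hsub
    have h6 : ({g a, g b, g i, g j} : Finset ℕ).sort (· ≤ ·) = [g a, g b, g i, g j] := by
      have hp : List.Pairwise (· ≤ ·) [g a, g b, g i, g j] := by
        simp only [List.pairwise_cons, List.mem_cons, List.not_mem_nil, or_false,
          forall_eq_or_imp, forall_eq, List.Pairwise.nil, and_true, false_imp_iff,
          implies_true]
        omega
      have := (List.toFinset_sort (r := (· ≤ ·)) hnd).2 hp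
      simpa using this
    simpa [Q, h6] using h5
  refine ⟨g, hgm, ?_⟩
  by_cases hcc : c
  · left
    intro a b i j hab hbi hij
    rw [key a b i j hab hbi hij]; exact hcc
  · right
    intro a b i j hab hbi hij
    rw [key a b i j hab hbi hij]; exact hcc

end Pool.Agent.H825R3
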