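import Mathlib

namespace Pool.Agent.H825R3

open NormedSpace

variable {X : Type*} [NormedAddCommGroup X] [NormedSpace ℝ X]

/-- Riesz lemma for the range of a non-surjective isometric embedding of a complete space. -/
theorem exists_far_aux {Y E : Type*} [NormedAddCommGroup Y] [NormedSpace ℝ Y] [CompleteSpace Y]
    [NormedAddCommGroup E] [NormedSpace ℝ E] (J : Y →ₗᵢ[ℝ] E)
    (h : ¬ Function.Surjective J) {r : ℝ} (hr : r < 1) :
    ∃ F : E, ‖F‖ = 1 ∧ ∀ x : Y, r ≤ ‖F - J x‖ := by
  let R : Submodule ℝ E := LinearMap.range J.toLinearMap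
  have hclosed : IsClosed (R : Set E) := by
    have := J.isometry.isUniformInducing.isComplete_range.isClosed
    rw [show (R : Set E) = Set.range J from LinearMap.coe_range J.toLinearMap]
    exact this
  have hne : ∃ F, F ∉ R := by
    by_contra hcon
    push Not at hcon
    apply h
    intro F
    obtain ⟨x, hx⟩ := hcon F
    exact ⟨x, hx⟩
  obtain ⟨F₀, hF₀, hF⟩ := riesz_lemma hclosed hne hr
  have hpos : 0 < ‖F₀‖ := by
    rw [norm_pos_iff]
    rintro rfl
    exact hF₀ R.zero_mem
  refine ⟨‖F₀‖⁻¹ • F₀, ?_, ?_⟩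
  · rw [norm_smul, norm_inv, norm_norm, inv_mul_cancel₀ hpos.ne']
  · intro x
    have h1 : J (‖F₀‖ • x) ∈ R := ⟨‖F₀‖ • x, rfl⟩
    have h2 := hF _ h1
    have h3 : ‖F₀‖⁻¹ • F₀ - J x = ‖F₀‖⁻¹ • (F₀ - J (‖F₀‖ • x)) := by
      rw [smul_sub, map_smul, smul_smul, inv_mul_cancel₀ hpos.ne', one_smul]
    rw [h3, norm_smul, norm_inv, norm_norm, ← div_eq_inv_mul, le_div_iff₀ hpos]
    exact h2

/-- Riesz: in a non-reflexive Banach space some norm-one element of the bidual is almost at
distance one from the canonical copy of the space. -/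
theorem exists_far [CompleteSpace X]
    (h : ¬ Function.Surjective (inclusionInDoubleDual ℝ X)) {r : ℝ} (hr : r < 1) :
    ∃ F : StrongDual ℝ (StrongDual ℝ X), ‖F‖ = 1 ∧
      ∀ x : X, r ≤ ‖F - inclusionInDoubleDual ℝ X x‖ := by
  let J : X →ₗᵢ[ℝ] StrongDual ℝ (StrongDual ℝ X) := inclusionInDoubleDualLi (E := X) ℝ
  have hJ : ∀ x : X, J x = inclusionInDoubleDual ℝ X x := fun x => rfl
  have hs : ¬ Function.Surjective J := by
    intro hs
    apply h
    intro F
    obtain ⟨x, hx⟩ := hs F
    exact ⟨x, by rw [← hJ]; exact hx⟩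
  have key := @exists_far_aux X (StrongDual ℝ (StrongDual ℝ X)) _ _ _ inferInstance
    inferInstance J hs r hr
  obtain ⟨F, h1, h2⟩ := key
  refine ⟨F, h1, fun x => ?_⟩
  rw [← hJ]
  exact h2 x

/-- A vector in the ball killed by finitely many functionals and on which `F` is `θ`, as soon
as `F` is at distance at least `r > θ` from the span of these functionals. -/
theorem exists_fun_aux {E : Type*} [NormedAddCommGroup E] [NormedSpace ℝ E] {ι : Type*}
    [Fintype ι] (L : ι → StrongDual ℝ E) {F : StrongDual ℝ E} {r θ : ℝ} (h0 : 0 < θ)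
    (hθ : θ < r) (hF : ∀ c : ι → ℝ, r ≤ ‖F - ∑ i, c i • L i‖) :
    ∃ f : E, ‖f‖ ≤ 1 ∧ F f = θ ∧ ∀ i, L i f = 0 := by
  classical
  let M : Submodule ℝ E := ⨅ i, LinearMap.ker (L i).toLinearMap
  have hM : ∀ f ∈ M, ∀ i, L i f = 0 := by
    intro f hf i
    have := (Submodule.mem_iInf _).1 hf i
    simpa using this
  let FM : StrongDual ℝ M := F.comp M.subtypeL
  have hbig : r ≤ ‖FM‖ := by
    obtain ⟨G, hG, hGn⟩ := exists_extension_norm_eq (𝕜 := ℝ) M FM
    have hker : ⨅ i, LinearMap.ker (L i).toLinearMap ≤ LinearMap.ker (F - G).toLinearMap := by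
      intro f hf
      have h1 : G f = F f := by
        have := hG ⟨f, hf⟩
        simpa [FM] using this
      simp [h1]
    have hspan := mem_span_of_iInf_ker_le_ker hker
    obtain ⟨c, hc⟩ := (Submodule.mem_span_range_iff_exists_fun ℝ).1 hspan
    have h2 := hF c
    have h3 : F - ∑ i, c i • L i = G := by
      have h4 : F - G = ∑ i, c i • L i := by
        ext f
        have h5 := LinearMap.congr_fun hc f
        simp only [LinearMap.coe_sum, Finset.sum_apply, LinearMap.smul_apply,
          ContinuousLinearMap.coe_coe, smul_eq_mul] at h5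
        refine h5.symm.trans ?_
        simp
      rw [← h4]; abel
    rw [h3, hGn] at h2
    exact h2
  obtain ⟨f, hf1, hf2⟩ := ContinuousLinearMap.exists_lt_apply_of_lt_opNorm FM
    (lt_of_lt_of_le hθ hbig)
  have hval : FM f = F (f : E) := rfl
  rw [hval, Real.norm_eq_abs] at hf2
  have hne : F (f : E) ≠ 0 := by
    intro h
    rw [h, abs_zero] at hf2
    linarith
  refine ⟨(θ / F (f : E)) • (f : E), ?_, ?_, ?_⟩
  · rw [norm_smul, norm_div, Real.norm_eq_abs, Real.norm_eq_abs, abs_of_pos h0]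
    have h1 : θ / |F (f : E)| ≤ 1 := by
      rw [div_le_one (by linarith)]; exact hf2.le
    have h2 : ‖(f : E)‖ ≤ 1 := by
      have := hf1.le
      simpa using this
    have h3 : 0 ≤ θ / |F (f : E)| := by positivity
    calc θ / |F (f : E)| * ‖(f : E)‖ ≤ 1 * 1 :=
          mul_le_mul h1 h2 (norm_nonneg _) (by norm_num)
      _ = 1 := by norm_num
  · rw [map_smul, smul_eq_mul, div_mul_cancel₀ _ hne]
  · intro i
    have := hM f f.2 i
    simp [this]

/-- A functional in the dual ball which kills finitely many vectors and on which `F` is `θ`. -/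
theorem exists_fun {F : StrongDual ℝ (StrongDual ℝ X)} {r θ : ℝ} (h0 : 0 < θ) (hθ : θ < r)
    (hF : ∀ x : X, r ≤ ‖F - inclusionInDoubleDual ℝ X x‖) (s : Finset X) :
    ∃ f : StrongDual ℝ X, ‖f‖ ≤ 1 ∧ F f = θ ∧ ∀ x ∈ s, f x = 0 := by
  classical
  obtain ⟨f, h1, h2, h3⟩ := exists_fun_aux (fun x : s => inclusionInDoubleDual ℝ X (x : X))
    h0 hθ (F := F) (by
      intro c
      have := hF (∑ i, c i • (i : X))
      simpa [map_sum, map_smul] using this)
  exact ⟨f, h1, h2, fun x hx => by simpa using h3 ⟨x, hx⟩⟩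

/-- Helly/Goldstine in the finite approximate form. -/
theorem goldstine {F : StrongDual ℝ (StrongDual ℝ X)} (hF : ‖F‖ ≤ 1) {δ : ℝ} (hδ : 0 < δ)
    (s : Finset (StrongDual ℝ X)) :
    ∃ x : X, ‖x‖ ≤ 1 ∧ ∀ f ∈ s, |f x - F f| ≤ δ := by
  classical
  let T : X →L[ℝ] (s → ℝ) := ContinuousLinearMap.pi fun f => (f : StrongDual ℝ X)
  let p : s → ℝ := fun f => F f
  let K : Set (s → ℝ) := T '' Metric.closedBall 0 1
  have hK : Convex ℝ K := (convex_closedBall (0 : X) 1).linear_image T.toLinearMap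
  have hp : p ∈ closure K := by
    by_contra hcon
    obtain ⟨g, u, hg, hu⟩ := geometric_hahn_banach_closed_point hK.closure isClosed_closure hcon
    let c : s → ℝ := fun i => g (Pi.single i 1)
    have hgc : ∀ v : s → ℝ, g v = ∑ i, v i * c i := by
      intro v
      have h1 : v = ∑ i, v i • (Pi.single i (1 : ℝ) : s → ℝ) := by
        ext j
        simp [Finset.sum_apply, Pi.single_apply]
      conv_lhs => rw [h1]
      rw [map_sum]
      simp [c]
    let f : StrongDual ℝ X := ∑ i : s, c i • (i : StrongDual ℝ X)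
    have hf : ∀ x : X, f x = g (T x) := by
      intro x
      rw [hgc]
      simp only [f, T, FunLike.coe_sum, Finset.sum_apply,
        FunLike.coe_smul, Pi.smul_apply, smul_eq_mul,
        ContinuousLinearMap.coe_pi']
      exact Finset.sum_congr rfl fun i _ => mul_comm _ _
    have hFf : F f = g p := by
      rw [hgc]
      simp only [f, map_sum, map_smul, smul_eq_mul, p]
      exact Finset.sum_congr rfl fun i _ => mul_comm _ _
    have hu0 : 0 < u := by
      have h1 : T 0 ∈ closure K := subset_closure ⟨0, by simp, rfl⟩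
      have := hg _ h1
      simpa using this
    have hfn : ‖f‖ ≤ u := by
      refine ContinuousLinearMap.opNorm_le_of_unit_norm hu0.le ?_
      intro x hx
      rw [Real.norm_eq_abs, abs_le]
      have h1 : T x ∈ closure K := subset_closure ⟨x, by simp [hx], rfl⟩
      have h2 : T (-x) ∈ closure K := subset_closure ⟨-x, by simp [hx], rfl⟩
      have h3 := hg _ h1
      have h4 := hg _ h2
      rw [← hf] at h3 h4
      rw [map_neg] at h4
      constructor <;> linarith
    have h1 : F f ≤ ‖f‖ := by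
      calc F f ≤ ‖F f‖ := Real.le_norm_self _
        _ ≤ ‖F‖ * ‖f‖ := F.le_opNorm f
        _ ≤ 1 * ‖f‖ := by gcongr
        _ = ‖f‖ := one_mul _
    linarith
  obtain ⟨y, ⟨x, hx, rfl⟩, hy⟩ := Metric.mem_closure_iff.1 hp δ hδ
  refine ⟨x, by simpa using hx, ?_⟩
  intro f hf
  have h1 := (dist_pi_lt_iff hδ).1 hy ⟨f, hf⟩
  rw [Real.dist_eq, abs_sub_comm] at h1
  exact h1.le

end Pool.Agent.H825R3
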