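import Mathlib
import Pool.Agent.H825R3.James

namespace Pool.Agent.H825R3

open NormedSpace

variable {X : Type*} [NormedAddCommGroup X] [NormedSpace ℝ X]

/-- James sequences: `f n (x k)` vanishes for `k < n` and is nearly `θ` for `n ≤ k`. -/
theorem james_seq [CompleteSpace X]
    (h : ¬ Function.Surjective (inclusionInDoubleDual ℝ X)) {θ δ : ℝ} (h0 : 0 < θ) (h1 : θ < 1)
    (hδ : 0 < δ) :
    ∃ (x : ℕ → X) (f : ℕ → StrongDual ℝ X), (∀ n, ‖x n‖ ≤ 1) ∧ (∀ n, ‖f n‖ ≤ 1) ∧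
      (∀ n k, k < n → f n (x k) = 0) ∧ (∀ n k, n ≤ k → |f n (x k) - θ| ≤ δ) := by
  classical
  obtain ⟨F, hF1, hF2⟩ := exists_far h (r := (θ + 1) / 2) (by linarith)
  obtain ⟨u, hu1, hu2⟩ := exists_seq_of_forall_finset_exists
    (fun p : X × StrongDual ℝ X => ‖p.1‖ ≤ 1 ∧ ‖p.2‖ ≤ 1 ∧ F p.2 = θ ∧ |p.2 p.1 - θ| ≤ δ)
    (fun p q : X × StrongDual ℝ X => q.2 p.1 = 0 ∧ |p.2 q.1 - θ| ≤ δ) (by
      intro s hs
      obtain ⟨f, hf1, hf2, hf3⟩ := exists_fun h0 (by linarith : θ < (θ + 1) / 2) hF2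
        (s.image Prod.fst)
      obtain ⟨x, hx1, hx2⟩ := goldstine hF1.le hδ (insert f (s.image Prod.snd))
      refine ⟨(x, f), ⟨hx1, hf1, hf2, ?_⟩, ?_⟩
      · have := hx2 f (Finset.mem_insert_self _ _)
        rwa [hf2] at this
      · intro p hp
        refine ⟨hf3 _ (Finset.mem_image_of_mem _ hp), ?_⟩
        have := hx2 p.2 (Finset.mem_insert_of_mem (Finset.mem_image_of_mem _ hp))
        rwa [(hs p hp).2.2.1] at this)
  refine ⟨fun n => (u n).1, fun n => (u n).2, fun n => (hu1 n).1, fun n => (hu1 n).2.1, ?_, ?_⟩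
  · intro n k hk
    exact (hu2 k n hk).1
  · intro n k hk
    rcases hk.eq_or_lt with rfl | hk
    · exact (hu1 n).2.2.2
    · exact (hu2 n k hk).2

/-- Lower bound of a norm by a functional of norm at most one. -/
theorem le_norm_of {f : StrongDual ℝ X} (hf : ‖f‖ ≤ 1) (v : X) : |f v| ≤ ‖v‖ := by
  have := f.le_of_opNorm_le hf v
  simpa using this

/-- From a pairwise separated sequence of vectors of norm at most `M`, scale into the unit
ball. -/
theorem scale {y : ℕ → X} {M d : ℝ} (hM : 0 < M) (hy : ∀ n, ‖y n‖ ≤ M)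
    (hs : ∀ n m, n < m → d * M ≤ ‖y n + y m‖ ∧ d * M ≤ ‖y n - y m‖) :
    ∃ x : ℕ → X, (∀ n, ‖x n‖ ≤ 1) ∧
      ∀ n m : ℕ, n ≠ m → d ≤ ‖x n + x m‖ ∧ d ≤ ‖x n - x m‖ := by
  refine ⟨fun n => M⁻¹ • y n, ?_, ?_⟩
  · intro n
    rw [norm_smul, norm_inv, Real.norm_eq_abs, abs_of_pos hM, inv_mul_le_iff₀ hM, mul_one]
    exact hy n
  · have key : ∀ n m : ℕ, n < m →
        d ≤ ‖M⁻¹ • y n + M⁻¹ • y m‖ ∧ d ≤ ‖M⁻¹ • y n - M⁻¹ • y m‖ := by
      intro n m hnm
      rw [← smul_add, ← smul_sub, norm_smul, norm_smul, norm_inv, Real.norm_eq_abs,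
        abs_of_pos hM, ← div_eq_inv_mul, ← div_eq_inv_mul, le_div_iff₀ hM, le_div_iff₀ hM]
      exact hs n m hnm
    intro n m hnm
    rcases lt_or_gt_of_ne hnm with h | h
    · exact key n m h
    · have := key m n h
      rw [add_comm, norm_sub_rev] at this
      exact this

end Pool.Agent.H825R3
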