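import Mathlib
import Pool.Agent.H825R3.Ram
import Pool.Agent.H825R3.Seq

namespace Pool.Agent.H825R3

open NormedSpace

variable {X : Type*} [NormedAddCommGroup X] [NormedSpace ℝ X]

/-- Every non-reflexive Banach space has a symmetrically `21/20`-separated sequence in its unit
ball. -/
theorem symm_kottman [CompleteSpace X]
    (h : ¬ Function.Surjective (inclusionInDoubleDual ℝ X)) :
    ∃ x : ℕ → X, (∀ n, ‖x n‖ ≤ 1) ∧
      ∀ n m : ℕ, n ≠ m → (21/20 : ℝ) ≤ ‖x n + x m‖ ∧ (21/20 : ℝ) ≤ ‖x n - x m‖ := by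
  obtain ⟨x, f, hx, hf, hz, hθ⟩ := james_seq h (θ := 99/100) (δ := 1/100) (by norm_num)
    (by norm_num) (by norm_num)
  -- the pairs
  obtain ⟨g, hg, hP | hP⟩ := ramsey_two (fun a b => ‖x a - x b‖ < 21/20)
  swap
  · refine scale (y := fun n => x (g n)) (M := 1) one_pos (fun n => hx _) ?_
    intro n m hnm
    have hgnm := hg hnm
    have h2 := hP n m hnm
    refine ⟨?_, by linarith [not_lt.1 h2]⟩
    have e1 := abs_le.1 (hθ (g n) (g n) le_rfl)
    have e2 := abs_le.1 (hθ (g n) (g m) hgnm.le)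
    have e3 := le_norm_of (hf (g n)) (x (g n) + x (g m))
    rw [map_add] at e3
    have e4 := le_abs_self (f (g n) (x (g n)) + f (g n) (x (g m)))
    linarith [e1.1, e2.1]
  -- the quadruples
  obtain ⟨k, hk, hQ | hQ⟩ := ramsey_four (fun a b i j =>
    ‖-x (g a) + (2 : ℝ) • x (g b) + x (g i) - (2 : ℝ) • x (g j)‖ < 861/400)
  swap
  · refine scale (y := fun n => -x (g (k (2 * n))) + (2 : ℝ) • x (g (k (2 * n + 1))))
      (M := 41/20) (by norm_num) ?_ ?_
    · intro n
      have h1 : k (2 * n) < k (2 * n + 1) := hk (Nat.lt_succ_self _)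
      have h2 := hP _ _ h1
      have h3 := hx (g (k (2 * n + 1)))
      have h4 : -x (g (k (2 * n))) + (2 : ℝ) • x (g (k (2 * n + 1))) =
          x (g (k (2 * n + 1))) - (x (g (k (2 * n))) - x (g (k (2 * n + 1)))) := by
        module
      show ‖-x (g (k (2 * n))) + (2 : ℝ) • x (g (k (2 * n + 1)))‖ ≤ _
      rw [h4]
      refine (norm_sub_le _ _).trans ?_
      linarith
    · intro n m hnm
      have h1 : 2 * n < 2 * n + 1 := by omega
      have h2 : 2 * n + 1 < 2 * m := by omega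
      have h3 : 2 * m < 2 * m + 1 := by omega
      have k1 := hg (hk h1)
      have k2 := hg (hk h2)
      have k3 := hg (hk h3)
      constructor
      · set p := g (k (2 * n))
        set q := g (k (2 * n + 1))
        set i := g (k (2 * m))
        set j := g (k (2 * m + 1))
        have e0 := hz q p k1
        have e1 := abs_le.1 (hθ q q le_rfl)
        have e2 := abs_le.1 (hθ q i (by omega))
        have e3 := abs_le.1 (hθ q j (by omega))
        have e4 := le_norm_of (hf q) (-x p + (2 : ℝ) • x q + (-x i + (2 : ℝ) • x j))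
        have e5 := le_abs_self (f q (-x p + (2 : ℝ) • x q + (-x i + (2 : ℝ) • x j)))
        have e6 : f q (-x p + (2 : ℝ) • x q + (-x i + (2 : ℝ) • x j)) =
            2 * f q (x q) - f q (x i) + 2 * f q (x j) := by
          simp only [map_add, map_neg, map_smul, smul_eq_mul, e0]
          ring
        linarith [e1.1, e2.2, e3.1]
      · have h4 := not_lt.1 (hQ _ _ _ _ h1 h2 h3)
        have h5 : -x (g (k (2 * n))) + (2 : ℝ) • x (g (k (2 * n + 1))) -
            (-x (g (k (2 * m))) + (2 : ℝ) • x (g (k (2 * m + 1)))) =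
            -x (g (k (2 * n))) + (2 : ℝ) • x (g (k (2 * n + 1))) + x (g (k (2 * m))) -
            (2 : ℝ) • x (g (k (2 * m + 1))) := by module
        show _ ≤ ‖-x (g (k (2 * n))) + (2 : ℝ) • x (g (k (2 * n + 1))) -
            (-x (g (k (2 * m))) + (2 : ℝ) • x (g (k (2 * m + 1))))‖
        rw [h5]
        linarith
  -- the last step
  refine scale (y := fun n => -x (g (k 0)) + (1/2 : ℝ) • x (g (k 1)) +
      ((2 : ℝ) • x (g (k (3 * n + 2))) + x (g (k (3 * n + 3))) -
        (2 : ℝ) • x (g (k (3 * n + 4)))))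
    (M := 1061/400) (by norm_num) ?_ ?_
  · intro n
    have h1 := hQ 0 (3 * n + 2) (3 * n + 3) (3 * n + 4) (by omega) (by omega) (by omega)
    have h2 : -x (g (k 0)) + (1/2 : ℝ) • x (g (k 1)) +
      ((2 : ℝ) • x (g (k (3 * n + 2))) + x (g (k (3 * n + 3))) -
        (2 : ℝ) • x (g (k (3 * n + 4)))) =
        (-x (g (k 0)) + (2 : ℝ) • x (g (k (3 * n + 2))) + x (g (k (3 * n + 3))) -
        (2 : ℝ) • x (g (k (3 * n + 4)))) + (1/2 : ℝ) • x (g (k 1)) := by module
    show ‖-x (g (k 0)) + (1/2 : ℝ) • x (g (k 1)) +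
      ((2 : ℝ) • x (g (k (3 * n + 2))) + x (g (k (3 * n + 3))) -
        (2 : ℝ) • x (g (k (3 * n + 4))))‖ ≤ _
    rw [h2]
    refine (norm_add_le _ _).trans ?_
    have h3 : ‖(1/2 : ℝ) • x (g (k 1))‖ ≤ 1/2 := by
      rw [norm_smul, Real.norm_eq_abs, abs_of_pos (by norm_num)]
      linarith [hx (g (k 1))]
    linarith
  · intro n m hnm
    have k0 : g (k 0) < g (k 1) := hg (hk (by omega))
    have k1 : g (k 1) < g (k (3 * n + 2)) := hg (hk (by omega))
    have k2 : g (k (3 * n + 2)) < g (k (3 * n + 3)) := hg (hk (by omega))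
    have k3 : g (k (3 * n + 3)) < g (k (3 * n + 4)) := hg (hk (by omega))
    have k4 : g (k (3 * n + 4)) < g (k (3 * m + 2)) := hg (hk (by omega))
    have k5 : g (k (3 * m + 2)) < g (k (3 * m + 3)) := hg (hk (by omega))
    have k6 : g (k (3 * m + 3)) < g (k (3 * m + 4)) := hg (hk (by omega))
    show _ ≤ ‖-x (g (k 0)) + (1/2 : ℝ) • x (g (k 1)) +
        ((2 : ℝ) • x (g (k (3 * n + 2))) + x (g (k (3 * n + 3))) -
          (2 : ℝ) • x (g (k (3 * n + 4)))) + (-x (g (k 0)) + (1/2 : ℝ) • x (g (k 1)) +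
        ((2 : ℝ) • x (g (k (3 * m + 2))) + x (g (k (3 * m + 3))) -
          (2 : ℝ) • x (g (k (3 * m + 4)))))‖ ∧ _ ≤ ‖-x (g (k 0)) + (1/2 : ℝ) • x (g (k 1)) +
        ((2 : ℝ) • x (g (k (3 * n + 2))) + x (g (k (3 * n + 3))) -
          (2 : ℝ) • x (g (k (3 * n + 4)))) - (-x (g (k 0)) + (1/2 : ℝ) • x (g (k 1)) +
        ((2 : ℝ) • x (g (k (3 * m + 2))) + x (g (k (3 * m + 3))) -
          (2 : ℝ) • x (g (k (3 * m + 4)))))‖
    generalize g (k 0) = p at *
    generalize g (k 1) = q at *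
    generalize g (k (3 * n + 2)) = a1 at *
    generalize g (k (3 * n + 3)) = a2 at *
    generalize g (k (3 * n + 4)) = a3 at *
    generalize g (k (3 * m + 2)) = b1 at *
    generalize g (k (3 * m + 3)) = b2 at *
    generalize g (k (3 * m + 4)) = b3 at *
    constructor
    · have e0 := hz q p k0
      have e1 := abs_le.1 (hθ q q le_rfl)
      have e2 := abs_le.1 (hθ q a1 (by omega))
      have e3 := abs_le.1 (hθ q a2 (by omega))
      have e4 := abs_le.1 (hθ q a3 (by omega))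
      have e5 := abs_le.1 (hθ q b1 (by omega))
      have e6 := abs_le.1 (hθ q b2 (by omega))
      have e7 := abs_le.1 (hθ q b3 (by omega))
      have e8 := le_norm_of (hf q) (-x p + (1/2 : ℝ) • x q +
        ((2 : ℝ) • x a1 + x a2 - (2 : ℝ) • x a3) + (-x p + (1/2 : ℝ) • x q +
        ((2 : ℝ) • x b1 + x b2 - (2 : ℝ) • x b3)))
      have e9 := le_abs_self (f q (-x p + (1/2 : ℝ) • x q +
        ((2 : ℝ) • x a1 + x a2 - (2 : ℝ) • x a3) + (-x p + (1/2 : ℝ) • x q +
        ((2 : ℝ) • x b1 + x b2 - (2 : ℝ) • x b3))))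
      have e10 : f q (-x p + (1/2 : ℝ) • x q +
        ((2 : ℝ) • x a1 + x a2 - (2 : ℝ) • x a3) + (-x p + (1/2 : ℝ) • x q +
        ((2 : ℝ) • x b1 + x b2 - (2 : ℝ) • x b3))) =
          f q (x q) + 2 * f q (x a1) + f q (x a2) - 2 * f q (x a3) + 2 * f q (x b1) +
            f q (x b2) - 2 * f q (x b3) := by
        simp only [map_add, map_sub, map_neg, map_smul, smul_eq_mul, e0]
        ring
      linarith [e1.1, e2.1, e3.1, e4.2, e5.1, e6.1, e7.2]
    · have e0 := hz a3 p (by omega)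
      have e0' := hz a3 q (by omega)
      have e1 := hz a3 a1 (by omega)
      have e2 := hz a3 a2 (by omega)
      have e4 := abs_le.1 (hθ a3 a3 le_rfl)
      have e5 := abs_le.1 (hθ a3 b1 (by omega))
      have e6 := abs_le.1 (hθ a3 b2 (by omega))
      have e7 := abs_le.1 (hθ a3 b3 (by omega))
      have e8 := le_norm_of (hf a3) (-x p + (1/2 : ℝ) • x q +
        ((2 : ℝ) • x a1 + x a2 - (2 : ℝ) • x a3) - (-x p + (1/2 : ℝ) • x q +
        ((2 : ℝ) • x b1 + x b2 - (2 : ℝ) • x b3)))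
      have e9 := neg_abs_le (f a3 (-x p + (1/2 : ℝ) • x q +
        ((2 : ℝ) • x a1 + x a2 - (2 : ℝ) • x a3) - (-x p + (1/2 : ℝ) • x q +
        ((2 : ℝ) • x b1 + x b2 - (2 : ℝ) • x b3))))
      have e10 : f a3 (-x p + (1/2 : ℝ) • x q +
        ((2 : ℝ) • x a1 + x a2 - (2 : ℝ) • x a3) - (-x p + (1/2 : ℝ) • x q +
        ((2 : ℝ) • x b1 + x b2 - (2 : ℝ) • x b3))) =
          - 2 * f a3 (x a3) - 2 * f a3 (x b1) - f a3 (x b2) + 2 * f a3 (x b3) := by
        simp only [map_add, map_sub, map_neg, map_smul, smul_eq_mul, e0, e0', e1, e2]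
        ring
      linarith [e4.1, e5.1, e6.1, e7.2]

end Pool.Agent.H825R3
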